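import Pool.Agent.H927.MG.SGoals

/-!
# Cech cohomology of a diagonal gluing on the projective line
-/

set_option autoImplicit false

open AlgebraicGeometry CategoryTheory Limits Polynomial
open scoped LaurentPolynomial
open LaurentPolynomial (T invert T_add T_zero involutive_invert invert_T invert_C)

namespace Pool.Agent.H100.MG927

open Pool.Agent.H927.MG

section laurent

variable {R : Type} [CommRing R]

lemma laurent_split (k : ℕ) (w : R[T;T⁻¹]) : ∃ p q : R[X],
    w = toLaurent p + ∑ i ∈ Finset.range k, LaurentPolynomial.C (w.coeff (-(i + 1 : ℤ))) *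
      T (-(i + 1 : ℤ)) + invert (toLaurent q) * T (-(k + 1 : ℤ)) := by
  induction w using LaurentPolynomial.induction_on' with
  | add w₁ w₂ h₁ h₂ =>
    obtain ⟨p₁, q₁, h₁⟩ := h₁
    obtain ⟨p₂, q₂, h₂⟩ := h₂
    refine ⟨p₁ + p₂, q₁ + q₂, ?_⟩
    nth_rw 1 [h₁, h₂]
    have h3 : ∑ i ∈ Finset.range k, LaurentPolynomial.C ((w₁ + w₂).coeff (-(i + 1 : ℤ))) *
      T (-(i + 1 : ℤ)) = ∑ i ∈ Finset.range k, LaurentPolynomial.C (w₁.coeff (-(i + 1 : ℤ))) *
      T (-(i + 1 : ℤ)) + ∑ i ∈ Finset.range k, LaurentPolynomial.C (w₂.coeff (-(i + 1 : ℤ))) *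
      T (-(i + 1 : ℤ)) := by
      rw [← Finset.sum_add_distrib]
      refine Finset.sum_congr rfl fun i _ => ?_
      rw [AddMonoidAlgebra.coeff_add, Finsupp.add_apply, map_add, add_mul]
    rw [h3, map_add, map_add, map_add]
    ring
  | C_mul_T n a =>
    have hc : ∀ j : ℤ, (LaurentPolynomial.C a * T n).coeff j = if n = j then a else 0 := by
      intro j
      rw [← LaurentPolynomial.single_eq_C_mul_T]
      exact Finsupp.single_apply
    by_cases h0 : 0 ≤ n
    · refine ⟨monomial n.toNat a, 0, ?_⟩
      rw [Polynomial.toLaurent_C_mul_T, map_zero, map_zero, zero_mul, add_zero, Finset.sum_eq_zero,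
        add_zero, Int.toNat_of_nonneg h0]
      intro i _
      rw [hc, if_neg (by omega), map_zero, zero_mul]
    · by_cases h1 : -(k : ℤ) ≤ n
      · refine ⟨0, 0, ?_⟩
        rw [map_zero, map_zero, zero_mul, add_zero, zero_add,
          Finset.sum_eq_single (-n - 1).toNat]
        · have e : (-(((-n - 1).toNat : ℤ) + 1)) = n := by omega
          rw [hc, e, if_pos rfl]
        · intro i _ hi
          rw [hc, if_neg (by omega), map_zero, zero_mul]
        · intro hi
          rw [Finset.mem_range] at hi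
          omega
      · refine ⟨0, monomial (-n - k - 1).toNat a, ?_⟩
        rw [Polynomial.toLaurent_C_mul_T, map_zero, zero_add, Finset.sum_eq_zero, zero_add,
          map_mul, LaurentPolynomial.invert_C, LaurentPolynomial.invert_T, mul_assoc,
          ← LaurentPolynomial.T_add]
        · congr 2; omega
        · intro i hi
          rw [Finset.mem_range] at hi
          rw [hc, if_neg (by omega), map_zero, zero_mul]

lemma coeff_toLaurent_neg (p : R[X]) (n : ℤ) (hn : n < 0) : (toLaurent p).coeff n = 0 := by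
  induction p using Polynomial.induction_on' with
  | add p q hp hq => rw [map_add, AddMonoidAlgebra.coeff_add, Finsupp.add_apply, hp, hq, add_zero]
  | monomial m a =>
    rw [Polynomial.toLaurent_C_mul_T, ← LaurentPolynomial.single_eq_C_mul_T]
    refine Finsupp.single_eq_of_ne ?_
    omega

lemma coeff_toLaurent (r : R[X]) (n : ℕ) : (toLaurent r).coeff n = r.coeff n := by
  induction r using Polynomial.induction_on' with
  | add p q hp hq =>
    rw [map_add, AddMonoidAlgebra.coeff_add, Finsupp.add_apply, hp, hq, coeff_add]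
  | monomial m c =>
    rw [Polynomial.toLaurent_C_mul_T, ← LaurentPolynomial.single_eq_C_mul_T,
      Polynomial.coeff_monomial]
    change (Finsupp.single (m : ℤ) c) (n : ℤ) = _
    rw [Finsupp.single_apply]
    congr 1
    exact propext ⟨fun h => by exact_mod_cast h, fun h => by exact_mod_cast h⟩

lemma coeff_mul_T (w : R[T;T⁻¹]) (m n : ℤ) : (w * T m).coeff n = w.coeff (n - m) := by
  induction w using LaurentPolynomial.induction_on' with
  | add w₁ w₂ h₁ h₂ =>
    rw [add_mul, AddMonoidAlgebra.coeff_add, Finsupp.add_apply, h₁, h₂,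
      AddMonoidAlgebra.coeff_add, Finsupp.add_apply]
  | C_mul_T k a =>
    rw [mul_assoc, ← LaurentPolynomial.T_add, ← LaurentPolynomial.single_eq_C_mul_T,
      ← LaurentPolynomial.single_eq_C_mul_T]
    change (Finsupp.single (k + m) a) n = (Finsupp.single k a) (n - m)
    rw [Finsupp.single_apply, Finsupp.single_apply]
    congr 1
    exact propext ⟨fun h => by omega, fun h => by omega⟩

lemma coeff_C_mul_T (a : R) (m n : ℤ) :
    (LaurentPolynomial.C a * T m).coeff n = if m = n then a else 0 := by
  rw [← LaurentPolynomial.single_eq_C_mul_T]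
  exact Finsupp.single_apply

lemma coeff_sub' (w w' : R[T;T⁻¹]) (n : ℤ) : (w - w').coeff n = w.coeff n - w'.coeff n := by
  have h : w = (w - w') + w' := by ring
  have h2 : w.coeff n = (w - w').coeff n + w'.coeff n := by
    conv_lhs => rw [h]
    rw [AddMonoidAlgebra.coeff_add, Finsupp.add_apply]
  rw [h2]; ring

/-- coefficients of the part coming from the second chart -/
lemma coeff_second (k : ℕ) (q : R[X]) (n : ℤ) :
    (T (-(k : ℤ)) * inv R (toLaurent q)).coeff n = (toLaurent q).coeff (-(n + k)) := by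
  rw [mul_comm, coeff_mul_T, inv_apply, LaurentPolynomial.invert_apply]
  congr 1
  ring

/-- **Cohomology in degree one** of the gluing by `T⁻ᵏ`, `k ≥ 1`. -/
lemma h1_iff (k : ℕ) (hk : 1 ≤ k) (w : R[T;T⁻¹]) :
    (∃ p q : R[X], w = toLaurent p + T (-(k : ℤ)) * inv R (toLaurent q)) ↔
      ∀ i : ℕ, i + 1 < k → w.coeff (-(i + 1 : ℤ)) = 0 := by
  constructor
  · rintro ⟨p, q, rfl⟩ i hi
    rw [AddMonoidAlgebra.coeff_add, Finsupp.add_apply, coeff_toLaurent_neg _ _ (by omega),
      coeff_second, coeff_toLaurent_neg _ _ (by omega), add_zero]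
  · intro h
    obtain ⟨p, q, hw⟩ := laurent_split (k - 1) w
    refine ⟨p, q, ?_⟩
    have h0 : ∑ i ∈ Finset.range (k - 1), LaurentPolynomial.C (w.coeff (-(i + 1 : ℤ))) *
        (T (-(i + 1 : ℤ)) : R[T;T⁻¹]) = 0 := by
      refine Finset.sum_eq_zero fun i hi => ?_
      rw [Finset.mem_range] at hi
      rw [h i (by omega), map_zero, zero_mul]
    rw [h0, add_zero] at hw
    have e : (-(((k - 1 : ℕ) : ℤ) + 1)) = -(k : ℤ) := by omega
    rw [e, mul_comm] at hw
    exact hw

/-- the gluing by the identity has no cohomology in degree one -/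
lemma h1_zero (w : R[T;T⁻¹]) : ∃ p q : R[X], w = toLaurent p + inv R (toLaurent q) := by
  obtain ⟨p, q, hw⟩ := laurent_split 0 w
  refine ⟨p, q * X, ?_⟩
  rw [Finset.sum_range_zero, add_zero] at hw
  rw [inv_apply, map_mul, Polynomial.toLaurent_X, map_mul, LaurentPolynomial.invert_T]
  have e : (-(((0 : ℕ) : ℤ) + 1)) = -1 := by norm_num
  rw [e] at hw
  exact hw

/-- **Cohomology in degree zero**. -/
lemma h0_coeff (k : ℕ) (p q : R[X]) (h : toLaurent p = T (-(k : ℤ)) * inv R (toLaurent q))
    (n : ℕ) (hn : 0 < n + k) : p.coeff n = 0 := by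
  rw [← coeff_toLaurent, h, coeff_second]
  exact coeff_toLaurent_neg _ _ (by omega)

lemma h0_pos (k : ℕ) (hk : 1 ≤ k) (p q : R[X])
    (h : toLaurent p = T (-(k : ℤ)) * inv R (toLaurent q)) : p = 0 := by
  ext n
  rw [h0_coeff k p q h n (by omega), coeff_zero]

lemma h0_zero (p q : R[X]) (h : toLaurent p = inv R (toLaurent q)) : ∃ r : R, p = C r := by
  refine ⟨p.coeff 0, ?_⟩
  have h' : toLaurent p = T (-((0 : ℕ) : ℤ)) * inv R (toLaurent q) := by
    rw [h]; simp
  ext n
  rcases Nat.eq_zero_or_pos n with rfl | hn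
  · simp
  · rw [h0_coeff 0 p q h' n (by omega), coeff_C, if_neg (by omega)]

end laurent

section chart

variable {R : Type} [CommRing R]

lemma inc_apply (d : Dat R[X]) (w : BB d) :
    inc d w = ⟨toLaurent w.a, toLaurent w.b, toLaurent w.p, toLaurent w.q⟩ := rfl

lemma inc2_apply (G : GD R) (w : BB G.d2) : inc2 G w = ⟨inv R (toLaurent w.a),
    G.g.c * inv R (toLaurent w.b),
    G.g.x * inv R (toLaurent w.p) + G.g.z * inv R (toLaurent w.q),
    G.g.y * inv R (toLaurent w.p) + G.g.t * inv R (toLaurent w.q)⟩ := by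
  rw [inc2, RingHom.comp_apply, Mor.hom_apply]
  rfl

lemma inc_sc_mul (d : Dat R[X]) (r : R) (w : BB d.L) : inc d (sc d r) * w =
    ⟨LaurentPolynomial.C r * w.a, LaurentPolynomial.C r * w.b, LaurentPolynomial.C r * w.p,
      LaurentPolynomial.C r * w.q⟩ := by
  rw [inc_sc_apply]
  ext1 <;> simp

end chart

/-- the diagonal gluing with degrees `3, 2, 2` -/
theorem cohom_diag {K : Type} [Field K] (G : GD K) (hc : G.g.c = T (-3)) (hx : G.g.x = T (-2))
    (hy : G.g.y = 0) (hz : G.g.z = 0) (ht : G.g.t = T (-2)) : Cohom G := by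
  constructor
  · intro w₁ w₂ h
    rw [inc_apply, inc2_apply, hc, hx, hy, hz, ht] at h
    have ha := congrArg BB.a h
    have hb := congrArg BB.b h
    have hp := congrArg BB.p h
    have hq := congrArg BB.q h
    simp only [zero_mul, add_zero, zero_add] at ha hb hp hq
    obtain ⟨r, hr⟩ := h0_zero _ _ ha
    refine ⟨r, ?_⟩
    rw [sc_apply]
    ext1
    · exact hr
    · exact h0_pos 3 (by norm_num) _ _ hb
    · exact h0_pos 2 (by norm_num) _ _ hp
    · exact h0_pos 2 (by norm_num) _ _ hq
  · refine ⟨![⟨0, T (-1), 0, 0⟩, ⟨0, T (-2), 0, 0⟩, ⟨0, 0, T (-1), 0⟩, ⟨0, 0, 0, T (-1)⟩], ?_⟩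
    intro w
    have key : ∀ a : Fin 4 → K, (∃ w₁ w₂, w = (∑ i, inc G.d1 (sc _ (a i)) *
        (![⟨0, T (-1), 0, 0⟩, ⟨0, T (-2), 0, 0⟩, ⟨0, 0, T (-1), 0⟩, ⟨0, 0, 0, T (-1)⟩] :
          Fin 4 → BB G.d1.L) i) + inc G.d1 w₁ + inc2 G w₂) ↔
        a 0 = w.b.coeff (-1) ∧ a 1 = w.b.coeff (-2) ∧ a 2 = w.p.coeff (-1) ∧
          a 3 = w.q.coeff (-1) := by
      intro a
      have hS : (∑ i, inc G.d1 (sc _ (a i)) *
        (![⟨0, T (-1), 0, 0⟩, ⟨0, T (-2), 0, 0⟩, ⟨0, 0, T (-1), 0⟩, ⟨0, 0, 0, T (-1)⟩] :
          Fin 4 → BB G.d1.L) i) = ⟨0, LaurentPolynomial.C (a 0) * T (-1) +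
            LaurentPolynomial.C (a 1) * T (-2), LaurentPolynomial.C (a 2) * T (-1),
            LaurentPolynomial.C (a 3) * T (-1)⟩ := by
        rw [Fin.sum_univ_four, inc_sc_mul, inc_sc_mul, inc_sc_mul, inc_sc_mul]
        ext1 <;> simp
      rw [hS]
      constructor
      · rintro ⟨w₁, w₂, h⟩
        rw [inc_apply, inc2_apply, hc, hx, hy, hz, ht] at h
        have hb := congrArg BB.b h
        have hp := congrArg BB.p h
        have hq := congrArg BB.q h
        simp only [BB.add_b, BB.add_p, BB.add_q, zero_mul, add_zero, zero_add] at hb hp hq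
        have e1 := (h1_iff 3 (by norm_num) (w.b - (LaurentPolynomial.C (a 0) * T (-1) +
          LaurentPolynomial.C (a 1) * T (-2)))).1 ⟨w₁.b, w₂.b, by
            rw [hb]; push_cast; ring⟩
        have e2 := (h1_iff 2 (by norm_num) (w.p - LaurentPolynomial.C (a 2) * T (-1))).1
          ⟨w₁.p, w₂.p, by rw [hp]; push_cast; ring⟩
        have e3 := (h1_iff 2 (by norm_num) (w.q - LaurentPolynomial.C (a 3) * T (-1))).1
          ⟨w₁.q, w₂.q, by rw [hq]; push_cast; ring⟩
        have e10 := e1 0 (by norm_num)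
        have e11 := e1 1 (by norm_num)
        have e20 := e2 0 (by norm_num)
        have e30 := e3 0 (by norm_num)
        simp only [coeff_sub', AddMonoidAlgebra.coeff_add, Finsupp.add_apply,
          coeff_C_mul_T] at e10 e11 e20 e30
        norm_num at e10 e11 e20 e30
        refine ⟨?_, ?_, ?_, ?_⟩
        · linear_combination -e10
        · linear_combination -e11
        · linear_combination -e20
        · linear_combination -e30
      · rintro ⟨h0, h1, h2, h3⟩
        obtain ⟨pa, qa, ea⟩ := h1_zero w.a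
        obtain ⟨pb, qb, eb⟩ := (h1_iff 3 (by norm_num) (w.b - (LaurentPolynomial.C (a 0) * T (-1) +
          LaurentPolynomial.C (a 1) * T (-2)))).2 (by
            intro i hi
            have hi' : i = 0 ∨ i = 1 := by omega
            simp only [coeff_sub', AddMonoidAlgebra.coeff_add, Finsupp.add_apply, coeff_C_mul_T]
            rcases hi' with rfl | rfl
            · norm_num
              rw [h0, sub_self]
            · norm_num
              rw [h1, sub_self])
        obtain ⟨pp, qp, ep⟩ := (h1_iff 2 (by norm_num) (w.p - LaurentPolynomial.C (a 2) *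
          T (-1))).2 (by
            intro i hi
            have hi' : i = 0 := by omega
            simp only [coeff_sub', coeff_C_mul_T]
            subst hi'
            norm_num
            rw [h2, sub_self])
        obtain ⟨pq, qq, eq⟩ := (h1_iff 2 (by norm_num) (w.q - LaurentPolynomial.C (a 3) *
          T (-1))).2 (by
            intro i hi
            have hi' : i = 0 := by omega
            simp only [coeff_sub', coeff_C_mul_T]
            subst hi'
            norm_num
            rw [h3, sub_self])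
        refine ⟨⟨pa, pb, pp, pq⟩, ⟨qa, qb, qp, qq⟩, ?_⟩
        rw [inc_apply, inc2_apply, hc, hx, hy, hz, ht]
        push_cast at eb ep eq
        ext1
        · simp only [BB.add_a, zero_add]
          exact ea
        · simp only [BB.add_b]
          linear_combination eb
        · simp only [BB.add_p, zero_mul, add_zero]
          linear_combination ep
        · simp only [BB.add_q, zero_mul, zero_add]
          linear_combination eq
    refine ⟨![w.b.coeff (-1), w.b.coeff (-2), w.p.coeff (-1), w.q.coeff (-1)], ?_, ?_⟩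
    · exact (key _).2 ⟨rfl, rfl, rfl, rfl⟩
    · intro a ha
      obtain ⟨h0, h1, h2, h3⟩ := (key a).1 ha
      ext i
      fin_cases i
      · exact h0
      · exact h1
      · exact h2
      · exact h3

theorem cohom_h : S_cohom_h := by
  intro K _ l0 l1 m0 m1 V0 V1 V2 V3 T0 T1 T2
  exact cohom_diag _ rfl rfl rfl rfl rfl

end Pool.Agent.H100.MG927
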